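import Pool.Agent.H76.QE.Targets

set_option autoImplicit false

/-!
# Board qd_modules: a wide system (row CFQ)
-/

namespace Pool.Agent.H64.QD

open Finset Pool.Agent.H76.QE
open Pool.Agent.H1.LP (supp ip comb kk S_DISP S_COL S_SMALL)

theorem pf_CFQ (hD : S_DISP) (hC : S_COL) (hN : T_CNT) : T_CFQ := by
  intro E w u p _ hE hw hk hp
  classical
  have hE3 : 1 ≤ E ^ 3 := Nat.one_le_pow _ _ hE
  have hw4 : 4 ≤ w := by omega
  have hw0 : 0 < w := by omega
  have hkk : kk w = 2 * (4 * w + 1) * w ^ 2 := rfl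
  have hu0 : 0 < u := by
    rcases Nat.eq_zero_or_pos u with h | h
    · rw [h, mul_zero, hkk] at hk
      have : 0 < 2 * (4 * w + 1) * w ^ 2 := by positivity
      omega
    · exact h
  have hwB : w ≤ w * u := Nat.le_mul_of_pos_right w hu0
  obtain ⟨B, hB⟩ : ∃ B : ℕ, B = w * u := ⟨_, rfl⟩
  have hBw : B / w = u := by
    rw [hB]
    exact Nat.mul_div_cancel_left u hw0
  rw [← hB] at hwB hk ⊢
  obtain ⟨T, hT, hd⟩ := hD w B hw4 hwB hk
  rw [hBw] at hd
  refine Exists.intro T ?_
  by_contra hcon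
  push Not at hcon
  -- the tables
  let AA : (Fin B → Fin (4 * w * B) → ZMod p) → Fin (4 * w * B) → Fin B → ZMod p :=
    fun a i j => if j ∈ T i then a j i else 0
  have hAA : ∀ a i, supp (AA a i) ⊆ T i := by
    intro a i j hj
    by_contra hne
    have := (mem_filter.mp hj).2
    simp [AA, hne] at this
  have hbad : ∀ a, ∃ C : Fin (4 * w * B) → ZMod p, u < (supp C).card ∧
      (supp C).card ≤ 256 * E * u ∧ 1024 * E * u ≤ (zer (comb (AA a) C)).card := by
    intro a
    have h1 := hcon (AA a) hT (hAA a)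
    unfold Wide at h1
    push Not at h1
    exact h1
  let Cs : Finset (Fin (4 * w * B) → ZMod p) :=
    univ.filter (fun c => u < (supp c).card ∧ (supp c).card ≤ 256 * E * u)
  let Bd : (Fin (4 * w * B) → ZMod p) → Finset (Fin B) →
      Finset (Fin B → Fin (4 * w * B) → ZMod p) := fun c U =>
    univ.filter (fun a => ∀ j ∈ U, ∑ i, c i * (if j ∈ T i then a j i else 0) = 0)
  let Us : Finset (Finset (Fin B)) := univ.filter (fun U => U.card = 1024 * E * u)
  have hcover : (univ : Finset (Fin B → Fin (4 * w * B) → ZMod p)) ⊆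
      (Cs ×ˢ Us).biUnion (fun q => Bd q.1 q.2) := by
    intro a _
    obtain ⟨c, hc1, hc2, hc3⟩ := hbad a
    obtain ⟨U, hU1, hU2⟩ := exists_subset_card_eq hc3
    refine mem_biUnion.mpr ⟨(c, U), mem_product.mpr ⟨?_, ?_⟩, ?_⟩
    · exact mem_filter.mpr ⟨mem_univ _, hc1, hc2⟩
    · exact mem_filter.mpr ⟨mem_univ _, hU2⟩
    · refine mem_filter.mpr ⟨mem_univ _, fun j hj => ?_⟩
      exact (mem_filter.mp (hU1 hj)).2
  have hone : ∀ q ∈ Cs ×ˢ Us, (Bd q.1 q.2).card * p ^ (512 * E * u) ≤ p ^ (4 * w * B * B) := by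
    rintro ⟨c, U⟩ hq
    obtain ⟨hc, hU⟩ := mem_product.mp hq
    have hc' := (mem_filter.mp hc).2
    have hU' := (mem_filter.mp hU).2
    refine hC p B (4 * w * B) T c U (512 * E * u) ?_
    by_contra hlt
    push Not at hlt
    -- the elements of `U` avoiding all `T i`
    have h1 := card_filter_add_card_filter_not (s := U) (fun j => ∃ i, c i ≠ 0 ∧ j ∈ T i)
    have h2 : 4 * u ≤ (U.filter (fun j => ¬ ∃ i, c i ≠ 0 ∧ j ∈ T i)).card := by
      simp only at hU'
      have h3 : 1 * u ≤ E * u := Nat.mul_le_mul_right u hE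
      have h4 : 1024 * E * u = 1024 * (E * u) := by ring
      have h5 : 512 * E * u = 512 * (E * u) := by ring
      rw [h4] at hU'
      rw [h5] at hlt
      omega
    obtain ⟨i, hi, j, hj, hjT⟩ := hd (supp c) _ (le_of_lt hc'.1) h2
    exact (mem_filter.mp hj).2 ⟨i, (mem_filter.mp hi).2, hjT⟩
  have hcard : Fintype.card (Fin B → Fin (4 * w * B) → ZMod p) = p ^ (4 * w * B * B) := by
    rw [Fintype.card_fun, Fintype.card_fun, ZMod.card, Fintype.card_fin, Fintype.card_fin,
      ← pow_mul]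
  have hUs : Us.card ≤ 2 ^ B := by
    calc Us.card ≤ (univ : Finset (Finset (Fin B))).card := card_filter_le _ _
      _ = 2 ^ B := by rw [card_univ, Fintype.card_finset, Fintype.card_fin]
  have hp0 : 0 < p := lt_of_le_of_lt (Nat.zero_le _) hp
  have hpos : 0 < p ^ (4 * w * B * B) := pow_pos hp0 _
  have hsum : p ^ (4 * w * B * B) * p ^ (512 * E * u) ≤
      Cs.card * 2 ^ B * p ^ (4 * w * B * B) := by
    calc p ^ (4 * w * B * B) * p ^ (512 * E * u)
        = (univ : Finset (Fin B → Fin (4 * w * B) → ZMod p)).card * p ^ (512 * E * u) := by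
          rw [card_univ, hcard]
      _ ≤ (∑ q ∈ Cs ×ˢ Us, (Bd q.1 q.2).card) * p ^ (512 * E * u) := by
          gcongr
          exact (card_le_card hcover).trans card_biUnion_le
      _ = ∑ q ∈ Cs ×ˢ Us, (Bd q.1 q.2).card * p ^ (512 * E * u) := by rw [sum_mul]
      _ ≤ ∑ _q ∈ Cs ×ˢ Us, p ^ (4 * w * B * B) := sum_le_sum hone
      _ = Cs.card * Us.card * p ^ (4 * w * B * B) := by
          rw [sum_const, card_product, smul_eq_mul]
      _ ≤ Cs.card * 2 ^ B * p ^ (4 * w * B * B) := by gcongr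
  have hmain : p ^ (512 * E * u) ≤ Cs.card * 2 ^ B := by
    have := hsum
    rw [mul_comm] at this
    exact Nat.le_of_mul_le_mul_right this hpos
  have hCs : Cs.card ≤ 2 ^ (4 * w * B) * p ^ (256 * E * u) := by
    refine le_trans ?_ (hN p (4 * w * B) (256 * E * u))
    apply card_le_card
    intro c hc
    exact mem_filter.mpr ⟨mem_univ _, (mem_filter.mp hc).2.2⟩
  have h1 : p ^ (256 * E * u) * p ^ (256 * E * u) ≤
      p ^ (256 * E * u) * 2 ^ (4 * w * B + B) := by
    calc p ^ (256 * E * u) * p ^ (256 * E * u) = p ^ (512 * E * u) := by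
          rw [← pow_add]
          congr 1
          ring
      _ ≤ Cs.card * 2 ^ B := hmain
      _ ≤ (2 ^ (4 * w * B) * p ^ (256 * E * u)) * 2 ^ B := Nat.mul_le_mul_right _ hCs
      _ = _ := by
          rw [pow_add]
          ring
  have h2 : p ^ (256 * E * u) ≤ 2 ^ (4 * w * B + B) :=
    Nat.le_of_mul_le_mul_left h1 (pow_pos hp0 _)
  have hne : 256 * E * u ≠ 0 := by positivity
  have h3 : (2 ^ (5 * w ^ 2)) ^ (256 * E * u) < p ^ (256 * E * u) :=
    Nat.pow_lt_pow_left hp hne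
  have h4 : 2 ^ (4 * w * B + B) ≤ (2 ^ (5 * w ^ 2)) ^ (256 * E * u) := by
    rw [← pow_mul]
    apply Nat.pow_le_pow_right (by norm_num)
    rw [hB]
    have h5 : w * u ≤ w ^ 2 * u := by
      apply Nat.mul_le_mul_right
      nlinarith
    have h6 : 5 * w ^ 2 * (256 * E * u) = 1280 * E * (w ^ 2 * u) := by ring
    have h7 : 4 * w * (w * u) + w * u = 4 * (w ^ 2 * u) + w * u := by ring
    rw [h6, h7]
    have h8 : 1280 * 1 * (w ^ 2 * u) ≤ 1280 * E * (w ^ 2 * u) := by gcongr
    omega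
  omega

end Pool.Agent.H64.QD
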