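import Pool.Agent.H76.QE.Targets

set_option autoImplicit false

/-!
# Board qd_modules: number of coefficient vectors (row CNT)
-/

namespace Pool.Agent.H64.QD

open Finset Pool.Agent.H76.QE
open Pool.Agent.H1.LP (supp ip comb kk S_DISP S_COL S_SMALL)

theorem pf_CNT : T_CNT := by
  classical
  intro p M t _
  have hp : 1 ≤ p := (Fact.out (p := p.Prime)).one_le
  have hsub : CC p M t ⊆ ((univ : Finset (Finset (Fin M))).filter (fun S => S.card ≤ t)).biUnion
      (fun S => Fintype.piFinset (fun j => if j ∈ S then (univ : Finset (ZMod p)) else {0})) := by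
    intro C hC
    have hC' : (supp C).card ≤ t := (mem_filter.1 hC).2
    refine mem_biUnion.2 ⟨supp C, mem_filter.2 ⟨mem_univ _, hC'⟩, ?_⟩
    rw [Fintype.mem_piFinset]
    intro j
    by_cases hj : j ∈ supp C
    · rw [if_pos hj]
      exact mem_univ _
    · rw [if_neg hj, mem_singleton]
      by_contra h
      exact hj (mem_filter.2 ⟨mem_univ _, h⟩)
  have hone : ∀ S ∈ (univ : Finset (Finset (Fin M))).filter (fun S => S.card ≤ t),
      (Fintype.piFinset (fun j => if j ∈ S then (univ : Finset (ZMod p)) else {0})).card ≤
        p ^ t := by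
    intro S hS
    have hS' := (mem_filter.1 hS).2
    rw [Fintype.card_piFinset]
    have h1 : ∀ j : Fin M, (if j ∈ S then (univ : Finset (ZMod p)) else {0}).card =
        if j ∈ S then p else 1 := by
      intro j
      by_cases hj : j ∈ S
      · rw [if_pos hj, if_pos hj, card_univ, ZMod.card]
      · rw [if_neg hj, if_neg hj, card_singleton]
    rw [prod_congr rfl fun j _ => h1 j, prod_ite_mem, univ_inter, prod_const]
    exact Nat.pow_le_pow_right hp hS'
  calc (CC p M t).card ≤ _ := card_le_card hsub
    _ ≤ ∑ S ∈ (univ : Finset (Finset (Fin M))).filter (fun S => S.card ≤ t),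
        (Fintype.piFinset (fun j => if j ∈ S then (univ : Finset (ZMod p)) else {0})).card :=
        card_biUnion_le
    _ ≤ ∑ _S ∈ (univ : Finset (Finset (Fin M))).filter (fun S => S.card ≤ t), p ^ t :=
        sum_le_sum hone
    _ = ((univ : Finset (Finset (Fin M))).filter (fun S => S.card ≤ t)).card * p ^ t := by
        rw [sum_const, smul_eq_mul]
    _ ≤ 2 ^ M * p ^ t := by
        apply Nat.mul_le_mul_right
        calc _ ≤ (univ : Finset (Finset (Fin M))).card := card_filter_le _ _
          _ = 2 ^ M := by rw [card_univ, Fintype.card_finset, Fintype.card_fin]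

end Pool.Agent.H64.QD
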