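import Pool.Agent.H76.QE.Targets

set_option autoImplicit false

/-!
# Board qd_modules: functions of low degree are combinations of characters (row FOU)
-/

namespace Pool.Agent.H64.QD

open Finset Pool.Agent.H76.QE
open Pool.Agent.H1.LP (supp ip comb kk S_DISP S_COL S_SMALL)
open H43.PS (PosDeg Low av)
open Pool.Agent.H73.OX (ch)

theorem pf_FOU : T_FOU := by
  intro p N h _ f hf
  have hq : Pool.Agent.H73.OX.Low (h + 1) f := by
    obtain ⟨F, hF, hf⟩ := hf
    have h1 : f = ∑ T ∈ univ.filter (fun T : Finset (Fin N) => T.card ≤ h), F T := by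
      funext z
      rw [Finset.sum_apply]
      exact hf z
    rw [h1]
    unfold Pool.Agent.H73.OX.Low
    refine Submodule.sum_mem _ fun T hT => Submodule.subset_span ?_
    have hT' : T.card ≤ h := by simpa using hT
    exact ⟨T, by omega, fun x y hxy => hF T x y hxy⟩
  obtain ⟨c, hc, hcz⟩ := Pool.Agent.H73.OX.low_fourier (h + 1) f hq
  refine ⟨c, fun z => ?_⟩
  rw [hcz z]
  symm
  apply sum_subset (subset_univ _)
  intro l _ hl
  have : c l = 0 := by
    by_contra hne
    apply hl
    exact mem_filter.2 ⟨mem_univ _, Nat.lt_succ_iff.1 (hc l hne)⟩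
  rw [this, zero_mul]

end Pool.Agent.H64.QD
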